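import Pool.Agent.H23.Allan

set_option autoImplicit false

namespace Pool.Agent.Results.MP_17a4eb_an.PseudoResolvent

open Metric Set

/-- Positive answer to Q1.  Let `A` be a complex unital Banach algebra, `a` a left invertible
element whose left invertibility radius (the supremum of all `α > 0` such that `a - l` is left
invertible whenever `|l| < α`) equals `1`, and `K` a compact subset of the open unit disc.
Then there are an open `U ⊇ K` and an analytic `g : U → A` with `g(l)(a - l) = 1` on `U` and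
`g(l) - g(m) = (l - m) g(l) g(m)` for all `l, m ∈ U` (in particular on `K`). -/
theorem result.{u} (A : Type u) [NormedRing A] [NormedAlgebra ℂ A] [CompleteSpace A] (a : A)
    (_ha : ∃ b : A, b * a = 1)
    (hr : IsLUB {α : ℝ | 0 < α ∧ ∀ l : ℂ, ‖l‖ < α → ∃ b : A, b * (a - algebraMap ℂ A l) = 1} 1)
    (K : Set ℂ) (hK : IsCompact K) (hKD : K ⊆ ball 0 1) :
    ∃ (U : Set ℂ) (g : ℂ → A), IsOpen U ∧ K ⊆ U ∧ AnalyticOnNhd ℂ g U ∧
      (∀ l ∈ U, g l * (a - algebraMap ℂ A l) = 1) ∧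
      (∀ l ∈ U, ∀ m ∈ U, g l - g m = (l - m) • (g l * g m)) := by
  obtain ⟨ρ, hρ, hKρ⟩ := exists_pos_lt_subset_ball one_pos hK.isClosed hKD
  obtain ⟨g, hg, h1, h2⟩ := Pool.Agent.H23.Allan.disc ρ hρ.1 a (by
    intro μ hμ
    obtain ⟨α, hα, hlt⟩ := (lt_isLUB_iff hr).1 (lt_of_le_of_lt hμ hρ.2)
    exact hα.2 μ hlt)
  exact ⟨ball 0 ρ, g, isOpen_ball, hKρ, hg.analyticOnNhd isOpen_ball, h1, h2⟩

end Pool.Agent.Results.MP_17a4eb_an.PseudoResolvent
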